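import Pool.Agent.Q274.DC.Stm2

/-! Lifting by Hasse-Davenport (`S_LIF`). -/

set_option autoImplicit false

open scoped Classical

namespace Pool.Agent.Q149.DC

open Pool.Agent.Q274.DC Pool.Agent.Y145.KS

/-- The character `χ ∘ norm`. -/
noncomputable def chiF {k : Type} [Field k] [Fintype k] (χ : MulChar k ℂ) (F : Type) [Field F]
    [Fintype F] [Algebra k F] : MulChar F ℂ where
  toFun x := χ (Algebra.norm k x)
  map_one' := by simp
  map_mul' x y := by simp
  map_nonunit' x hx := by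
    have hx0 : x = 0 := by
      by_contra h
      exact hx (isUnit_iff_ne_zero.2 h)
    have : Module.Finite k F := Module.Finite.of_finite
    rw [hx0, Algebra.norm_zero]
    exact χ.map_nonunit (by simp)

lemma chiF_apply {k : Type} [Field k] [Fintype k] (χ : MulChar k ℂ) (F : Type) [Field F]
    [Fintype F] [Algebra k F] (x : F) : chiF χ F x = χ (Algebra.norm k x) := rfl

theorem lif : S_CHJ → S_AFF → S_LIF := by
  intro hchj haff k _ _ χ ψ hχ hχ3 hψ F _ _ _ D hD
  have : Module.Finite k F := Module.Finite.of_finite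
  refine ⟨?_, ?_⟩
  · rw [Module.card_eq_pow_finrank (K := k) (V := F)]
    push_cast
    rfl
  have h1 : chiF χ F ≠ 1 := by
    rw [MulChar.ne_one_iff] at hχ ⊢
    obtain ⟨a, ha⟩ := hχ
    obtain ⟨x, hx⟩ := FiniteField.norm_surjective k F (a : k)
    have hx0 : x ≠ 0 := by
      rintro rfl
      rw [Algebra.norm_zero] at hx
      exact a.ne_zero hx.symm
    refine ⟨Units.mk0 x hx0, ?_⟩
    rw [chiF_apply, Units.val_mk0, hx]
    exact ha
  have hpow : ∀ y : k, χ y ^ 3 = (χ ^ 3) y := fun y =>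
    (MulChar.pow_apply' χ (by norm_num) y).symm
  have h3 : chiF χ F ^ 3 = 1 := by
    ext x
    rw [MulChar.pow_apply_coe, chiF_apply, hpow, hχ3]
    have hx : IsUnit (Algebra.norm k (x : F)) := x.isUnit.map _
    rw [MulChar.one_apply hx, MulChar.one_apply_coe]
  have hprim : (psi ψ F).IsPrimitive := AddChar.IsPrimitive.of_ne_one (psi_ne_one hψ F)
  obtain ⟨-, hmain⟩ := haff F (chiF χ F) (psi ψ F) h1 h3 (hchj F (chiF χ F) h1 h3) hprim
  have hD' : algebraMap k F D ≠ 0 := by
    rw [Ne, map_eq_zero]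
    exact hD
  rw [hmain _ hD']
  have hg : gaussSum (chiF χ F) (psi ψ F) =
      (-1) ^ (Module.finrank k F - 1) * gaussSum χ ψ ^ Module.finrank k F :=
    Pool.Agent.Y145.DW.hasse_davenport (E := F) χ hψ
  have hg' : gaussSum ((chiF χ F) ^ 2) (psi ψ F) =
      (-1) ^ (Module.finrank k F - 1) * gaussSum (χ ^ 2) ψ ^ Module.finrank k F := by
    rw [← Pool.Agent.Y145.DW.hasse_davenport (E := F) (χ ^ 2) hψ]
    unfold gaussSum
    refine Finset.sum_congr rfl fun x _ => ?_
    rw [MulChar.pow_apply' _ (by norm_num), MulChar.pow_apply' _ (by norm_num), chiF_apply]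
  have hDn : chiF χ F (algebraMap k F D) = χ D ^ Module.finrank k F := by
    rw [chiF_apply, Algebra.norm_algebraMap, map_pow]
  rw [hg, hg', hDn]
  obtain ⟨m, hm⟩ : ∃ m, Module.finrank k F = m + 1 :=
    ⟨Module.finrank k F - 1, by have := Module.finrank_pos (R := k) (M := F); omega⟩
  rw [hm, Nat.add_sub_cancel]
  have he : ((-1 : ℂ) ^ m) ^ 3 = (-1) ^ m := by
    rw [← pow_mul, mul_comm m 3, pow_mul]
    norm_num
  have hneg : ∀ x : ℂ, (-x) ^ (m + 1) = -((-1) ^ m * x ^ (m + 1)) := by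
    intro x
    rw [neg_pow x, pow_succ (-1 : ℂ) m]
    ring
  rw [hneg, hneg, mul_pow ((-1 : ℂ) ^ m), mul_pow ((-1 : ℂ) ^ m), he]
  ring

end Pool.Agent.Q149.DC
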